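import Mathlib
import Pool.Agent.W811.LW.Stm

set_option autoImplicit false

namespace Pool.Agent.W51.LW

open Finset Pool.Agent.W811.LW

/-- a failure: a good approximation `p / q` of `β + d / (E D)²` -/
def Fl (D E β : ℝ) (q : ℕ) (p : ℤ) (d : ℕ) : Prop :=
  0 < q ∧ 2 * (q : ℝ) < E ∧ |(q : ℝ) * (β + (d : ℝ) / (E ^ 2 * D ^ 2)) - p| * (2 * E * D ^ 2) < 1

lemma fl_bound {D E β : ℝ} (hD : 8 ≤ D) (hE : 1 ≤ E) {q : ℕ} {p : ℤ} {d : ℕ}
    (hd : (d : ℝ) ≤ D ^ 2) (h : Fl D E β q p d) : E * |(q : ℝ) * β - p| < 65 / 128 := by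
  obtain ⟨hq, hqE, hab⟩ := h
  have hD0 : 0 < D := by linarith
  have hE0 : 0 < E := by linarith
  have hD2 : 64 ≤ D ^ 2 := by nlinarith
  set X := (q : ℝ) * (β + (d : ℝ) / (E ^ 2 * D ^ 2)) - p with hX
  have h1 : (q : ℝ) * β - p = X - (q : ℝ) * (d : ℝ) / (E ^ 2 * D ^ 2) := by
    rw [hX]; ring
  have h2 : |(q : ℝ) * β - p| ≤ |X| + (q : ℝ) * (d : ℝ) / (E ^ 2 * D ^ 2) := by
    rw [h1]
    refine (abs_sub _ _).trans ?_
    rw [abs_of_nonneg (a := (q : ℝ) * (d : ℝ) / (E ^ 2 * D ^ 2)) (by positivity)]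
  have h3 : E * |X| < 1 / 128 := by
    have : E * |X| * (2 * D ^ 2) < 1 := by
      calc E * |X| * (2 * D ^ 2) = |X| * (2 * E * D ^ 2) := by ring
        _ < 1 := hab
    have hnn : 0 ≤ E * |X| := by positivity
    nlinarith
  have h4 : E * ((q : ℝ) * (d : ℝ) / (E ^ 2 * D ^ 2)) ≤ 1 / 2 := by
    have e1 : E * ((q : ℝ) * (d : ℝ) / (E ^ 2 * D ^ 2)) = ((q : ℝ) / E) * ((d : ℝ) / D ^ 2) := by
      field_simp
    rw [e1]
    have e2 : (q : ℝ) / E ≤ 1 / 2 := by
      rw [div_le_iff₀ hE0]; linarith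
    have e3 : (d : ℝ) / D ^ 2 ≤ 1 := by
      rw [div_le_one (by positivity)]; exact hd
    calc ((q : ℝ) / E) * ((d : ℝ) / D ^ 2) ≤ (1 / 2) * 1 :=
          mul_le_mul e2 e3 (by positivity) (by norm_num)
      _ = 1 / 2 := by norm_num
  calc E * |(q : ℝ) * β - p| ≤ E * (|X| + (q : ℝ) * (d : ℝ) / (E ^ 2 * D ^ 2)) :=
        mul_le_mul_of_nonneg_left h2 hE0.le
    _ = E * |X| + E * ((q : ℝ) * (d : ℝ) / (E ^ 2 * D ^ 2)) := by ring
    _ < 65 / 128 := by linarith

lemma fl_prop {D E β : ℝ} (hD : 8 ≤ D) (hE : 1 ≤ E) {q q' : ℕ} {p p' : ℤ} {d d' : ℕ}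
    (hd : (d : ℝ) ≤ D ^ 2) (hd' : (d' : ℝ) ≤ D ^ 2) (h : Fl D E β q p d)
    (h' : Fl D E β q' p' d') : (q : ℤ) * p' = (q' : ℤ) * p := by
  have b := fl_bound hD hE hd h
  have b' := fl_bound hD hE hd' h'
  obtain ⟨hq, hqE, -⟩ := h
  obtain ⟨hq', hqE', -⟩ := h'
  have hE0 : 0 < E := by linarith
  have key : |(((q : ℤ) * p' - (q' : ℤ) * p : ℤ) : ℝ)| < 1 := by
    have e : (((q : ℤ) * p' - (q' : ℤ) * p : ℤ) : ℝ)
        = (q' : ℝ) * ((q : ℝ) * β - p) - (q : ℝ) * ((q' : ℝ) * β - p') := by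
      push_cast; ring
    rw [e]
    refine (abs_sub _ _).trans_lt ?_
    rw [abs_mul, abs_mul, abs_of_nonneg (a := (q' : ℝ)) (by positivity),
      abs_of_nonneg (a := (q : ℝ)) (by positivity)]
    have c1 : (q' : ℝ) * |(q : ℝ) * β - p| ≤ E / 2 * |(q : ℝ) * β - p| :=
      mul_le_mul_of_nonneg_right (by linarith) (abs_nonneg _)
    have c2 : (q : ℝ) * |(q' : ℝ) * β - p'| ≤ E / 2 * |(q' : ℝ) * β - p'| :=
      mul_le_mul_of_nonneg_right (by linarith) (abs_nonneg _)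
    have c3 : E / 2 * |(q : ℝ) * β - p| = (E * |(q : ℝ) * β - p|) / 2 := by ring
    have c4 : E / 2 * |(q' : ℝ) * β - p'| = (E * |(q' : ℝ) * β - p'|) / 2 := by ring
    linarith
  rw [← Int.cast_abs] at key
  have key2 : |(q : ℤ) * p' - (q' : ℤ) * p| < 1 := by exact_mod_cast key
  have := Int.abs_lt_one_iff.1 key2
  linarith

lemma fl_min {D E β : ℝ} (hD : 8 ≤ D) (hE : 1 ≤ E) {q q' : ℕ} {p p' : ℤ} {d : ℕ}
    (hq' : 0 < q') (hpq : (q : ℤ) * p' = (q' : ℤ) * p) (hle : q' ≤ q) (h : Fl D E β q p d) :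
    Fl D E β q' p' d := by
  obtain ⟨hq, hqE, hab⟩ := h
  have hq'r : (0 : ℝ) < q' := by exact_mod_cast hq'
  have hqr : (0 : ℝ) < q := by exact_mod_cast hq
  have hler : (q' : ℝ) ≤ q := by exact_mod_cast hle
  have hpqr : (q : ℝ) * p' = (q' : ℝ) * p := by exact_mod_cast hpq
  refine ⟨hq', by linarith, ?_⟩
  have hk : 0 ≤ 2 * E * D ^ 2 := by positivity
  refine lt_of_le_of_lt (mul_le_mul_of_nonneg_right ?_ hk) hab
  set B := β + (d : ℝ) / (E ^ 2 * D ^ 2)
  have e : (q : ℝ) * ((q' : ℝ) * B - p') = (q' : ℝ) * ((q : ℝ) * B - p) := by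
    rw [mul_sub, mul_sub, hpqr]; ring
  have e2 : (q : ℝ) * |(q' : ℝ) * B - p'| = (q' : ℝ) * |(q : ℝ) * B - p| := by
    rw [← abs_of_pos hqr, ← abs_mul, abs_of_pos hqr, e, abs_mul, abs_of_pos hq'r]
  have e3 : (q' : ℝ) * |(q : ℝ) * B - p| ≤ (q : ℝ) * |(q : ℝ) * B - p| :=
    mul_le_mul_of_nonneg_right hler (abs_nonneg _)
  exact le_of_mul_le_mul_left (e2.trans_le e3) hqr

lemma card_near (s : Finset ℕ) (u : ℝ) (K : ℕ) (h : ∀ d ∈ s, |(d : ℝ) - u| ≤ K) :
    s.card ≤ 2 * K + 1 := by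
  rcases s.eq_empty_or_nonempty with rfl | hs
  · simp
  · have hsub : s ⊆ Finset.Icc (s.min' hs) (s.min' hs + 2 * K) := by
      intro d hd
      rw [Finset.mem_Icc]
      refine ⟨Finset.min'_le s d hd, ?_⟩
      have h1 := h d hd
      have h2 := h _ (Finset.min'_mem s hs)
      rw [abs_le] at h1 h2
      have : (d : ℝ) ≤ ((s.min' hs + 2 * K : ℕ) : ℝ) := by
        push_cast; linarith [h1.2, h2.1]
      exact_mod_cast this
    have := Finset.card_le_card hsub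
    rw [Nat.card_Icc] at this
    omega

theorem bak : BAK := by
  intro D n β hDn hBA
  classical
  have hD : (8 : ℝ) ≤ D := by exact_mod_cast hDn
  have hD0 : (0 : ℝ) < D := by linarith
  have hE1 : 1 ≤ (D : ℝ) ^ n := one_le_pow₀ (by linarith)
  have hBA' : ∀ q p : ℤ, 0 < q →
      1 / (2 * (D : ℝ)) ≤ max ((q : ℝ) / (D : ℝ) ^ n) ((D : ℝ) ^ n * |(q : ℝ) * β - (p : ℝ)|) := hBA
  refine ⟨(range (D ^ 2)).filter (fun d => ∃ q p, Fl D ((D : ℝ) ^ n) β q p d), ?_, ?_⟩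
  · generalize (D : ℝ) ^ n = E at hE1 hBA'
    have hE0 : 0 < E := by linarith
    set s := (range (D ^ 2)).filter (fun d => ∃ q p, Fl D E β q p d) with hs
    have hmem : ∀ d ∈ s, (d : ℝ) ≤ (D : ℝ) ^ 2 := by
      intro d hd
      have := (Finset.mem_filter.1 hd).1
      rw [Finset.mem_range] at this
      exact_mod_cast this.le
    by_cases hne : s = ∅
    · rw [hne]; simp
    obtain ⟨d0, hd0⟩ := Finset.nonempty_iff_ne_empty.2 hne
    have hex : ∃ q : ℕ, ∃ d ∈ s, ∃ p, Fl D E β q p d := by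
      obtain ⟨q, p, h⟩ := (Finset.mem_filter.1 hd0).2
      exact ⟨q, d0, hd0, p, h⟩
    obtain ⟨d1, hd1, p0, h0⟩ := Nat.find_spec hex
    have hmin : ∀ q, (∃ d ∈ s, ∃ p, Fl D E β q p d) → Nat.find hex ≤ q := fun q h =>
      Nat.find_min' hex h
    generalize Nat.find hex = q0 at h0 hmin
    have hall : ∀ d ∈ s, Fl D E β q0 p0 d := by
      intro d hd
      obtain ⟨q, p, h⟩ := (Finset.mem_filter.1 hd).2
      exact fl_min hD hE1 h0.1 (fl_prop hD hE1 (hmem d hd) (hmem d1 hd1) h h0)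
        (hmin q ⟨d, hd, p, h⟩) h
    obtain ⟨hq0, hq0E, -⟩ := h0
    have hq0r : (0 : ℝ) < q0 := by exact_mod_cast hq0
    have hba := hBA' (q0 : ℤ) p0 (by exact_mod_cast hq0)
    rw [Int.cast_natCast] at hba
    rcases le_max_iff.1 hba with hc | hc
    · -- the point `u`
      have hED : E ≤ 2 * D * q0 := by
        rw [div_le_div_iff₀ (by positivity) hE0] at hc
        linarith
      have := card_near s (-(((q0 : ℝ) * β - p0) * (E ^ 2 * (D : ℝ) ^ 2) / q0)) D (by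
        intro d hd
        have hf := (hall d hd).2.2
        have e : (d : ℝ) - -(((q0 : ℝ) * β - p0) * (E ^ 2 * (D : ℝ) ^ 2) / q0)
            = ((q0 : ℝ) * (β + (d : ℝ) / (E ^ 2 * (D : ℝ) ^ 2)) - p0)
              * ((E ^ 2 * (D : ℝ) ^ 2) / q0) := by
          field_simp
          ring
        rw [e, abs_mul, abs_of_pos (a := (E ^ 2 * (D : ℝ) ^ 2) / q0) (by positivity)]
        set Y := |(q0 : ℝ) * (β + (d : ℝ) / (E ^ 2 * (D : ℝ) ^ 2)) - p0|
        have e1 : Y * ((E ^ 2 * (D : ℝ) ^ 2) / q0) = (Y * (2 * E * (D : ℝ) ^ 2)) * (E / (2 * q0)) := by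
          field_simp
        rw [e1]
        have e2 : E / (2 * q0) ≤ D := by
          rw [div_le_iff₀ (by positivity)]; linarith
        calc (Y * (2 * E * (D : ℝ) ^ 2)) * (E / (2 * q0)) ≤ 1 * D :=
              mul_le_mul hf.le e2 (by positivity) zero_le_one
          _ = D := one_mul _)
      omega
    · by_cases hc2 : 1 / (2 * (D : ℝ)) ≤ (q0 : ℝ) / E
      · have hED : E ≤ 2 * D * q0 := by
          rw [div_le_div_iff₀ (by positivity) hE0] at hc2
          linarith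
        have := card_near s (-(((q0 : ℝ) * β - p0) * (E ^ 2 * (D : ℝ) ^ 2) / q0)) D (by
          intro d hd
          have hf := (hall d hd).2.2
          have e : (d : ℝ) - -(((q0 : ℝ) * β - p0) * (E ^ 2 * (D : ℝ) ^ 2) / q0)
              = ((q0 : ℝ) * (β + (d : ℝ) / (E ^ 2 * (D : ℝ) ^ 2)) - p0)
                * ((E ^ 2 * (D : ℝ) ^ 2) / q0) := by
            field_simp
            ring
          rw [e, abs_mul, abs_of_pos (a := (E ^ 2 * (D : ℝ) ^ 2) / q0) (by positivity)]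
          set Y := |(q0 : ℝ) * (β + (d : ℝ) / (E ^ 2 * (D : ℝ) ^ 2)) - p0|
          have e1 : Y * ((E ^ 2 * (D : ℝ) ^ 2) / q0)
              = (Y * (2 * E * (D : ℝ) ^ 2)) * (E / (2 * q0)) := by
            field_simp
          rw [e1]
          have e2 : E / (2 * q0) ≤ D := by
            rw [div_le_iff₀ (by positivity)]; linarith
          calc (Y * (2 * E * (D : ℝ) ^ 2)) * (E / (2 * q0)) ≤ 1 * D :=
                mul_le_mul hf.le e2 (by positivity) zero_le_one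
            _ = D := one_mul _)
        omega
      · push Not at hc2
        have hqs : 2 * D * (q0 : ℝ) < E := by
          rw [div_lt_div_iff₀ hE0 (by positivity)] at hc2
          linarith
        have hsub : s ⊆ Finset.Ico (D ^ 2 - D) (D ^ 2) := by
          intro d hd
          rw [Finset.mem_Ico]
          refine ⟨?_, Finset.mem_range.1 (Finset.mem_filter.1 hd).1⟩
          have hf := (hall d hd).2.2
          have hc' : 1 ≤ E * |(q0 : ℝ) * β - p0| * (2 * D) := by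
            rw [div_le_iff₀ (by positivity)] at hc
            linarith
          have e : (q0 : ℝ) * β - p0 = ((q0 : ℝ) * (β + (d : ℝ) / (E ^ 2 * (D : ℝ) ^ 2)) - p0)
              - (q0 : ℝ) * d / (E ^ 2 * (D : ℝ) ^ 2) := by ring
          set Y := (q0 : ℝ) * (β + (d : ℝ) / (E ^ 2 * (D : ℝ) ^ 2)) - p0
          have e1 : |(q0 : ℝ) * β - p0| ≤ |Y| + (q0 : ℝ) * d / (E ^ 2 * (D : ℝ) ^ 2) := by
            rw [e]
            refine (abs_sub _ _).trans ?_
            rw [abs_of_nonneg (a := (q0 : ℝ) * d / (E ^ 2 * (D : ℝ) ^ 2)) (by positivity)]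
          -- multiply by `2 E D²`
          have e2 : |(q0 : ℝ) * β - p0| * (2 * E * (D : ℝ) ^ 2)
              ≤ |Y| * (2 * E * (D : ℝ) ^ 2) + 2 * (q0 : ℝ) * d / E := by
            calc |(q0 : ℝ) * β - p0| * (2 * E * (D : ℝ) ^ 2)
                ≤ (|Y| + (q0 : ℝ) * d / (E ^ 2 * (D : ℝ) ^ 2)) * (2 * E * (D : ℝ) ^ 2) :=
                  mul_le_mul_of_nonneg_right e1 (by positivity)
              _ = |Y| * (2 * E * (D : ℝ) ^ 2) + 2 * (q0 : ℝ) * d / E := by
                  field_simp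
          have e3 : (D : ℝ) ≤ |(q0 : ℝ) * β - p0| * (2 * E * (D : ℝ) ^ 2) := by
            calc (D : ℝ) = D * 1 := by ring
              _ ≤ D * (E * |(q0 : ℝ) * β - p0| * (2 * D)) := mul_le_mul_of_nonneg_left hc' hD0.le
              _ = |(q0 : ℝ) * β - p0| * (2 * E * (D : ℝ) ^ 2) := by ring
          have e4 : 2 * (q0 : ℝ) * d / E * D ≤ d := by
            rw [div_mul_eq_mul_div, div_le_iff₀ hE0]
            have : (0 : ℝ) ≤ d := Nat.cast_nonneg d
            nlinarith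
          have e5 : (D : ℝ) - 1 ≤ 2 * (q0 : ℝ) * d / E := by linarith
          have e6 : ((D : ℝ) - 1) * D ≤ d := (mul_le_mul_of_nonneg_right e5 hD0.le).trans e4
          have e7 : ((D ^ 2 : ℕ) : ℝ) ≤ ((d + D : ℕ) : ℝ) := by
            push_cast
            nlinarith
          have e8 : D ^ 2 ≤ d + D := by exact_mod_cast e7
          omega
        have := Finset.card_le_card hsub
        rw [Nat.card_Ico] at this
        omega
  · intro d hd hds q p hq
    by_contra hcon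
    push Not at hcon
    apply hds
    rw [Finset.mem_filter]
    refine ⟨Finset.mem_range.2 hd, ?_⟩
    lift q to ℕ using hq.le
    refine ⟨q, p, by exact_mod_cast hq, ?_, ?_⟩
    · have h1 := (max_lt_iff.1 hcon).1
      rw [div_lt_div_iff₀ (by positivity) (by positivity), pow_succ] at h1
      push_cast at h1
      have h2 : (D : ℝ) * (2 * (q : ℝ)) < (D : ℝ) * (D : ℝ) ^ n := by nlinarith
      exact lt_of_mul_lt_mul_left h2 hD0.le
    · have h1 := (max_lt_iff.1 hcon).2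
      rw [lt_div_iff₀ (by positivity)] at h1
      have e : (D : ℝ) ^ (2 * n + 2) = ((D : ℝ) ^ n) ^ 2 * (D : ℝ) ^ 2 := by ring
      rw [e] at h1
      push_cast at h1
      calc _ = _ := by ring
        _ < 1 := h1

end Pool.Agent.W51.LW
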